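import Pool.Agent.Q240.EX.Stm2
import Pool.Agent.Q237.CD.SpB

set_option autoImplicit false

/-!
# Project EX: `S_LimS2`, the products `S` tend to `1` locally uniformly if `n / a² → ∞`
-/

open Polynomial Filter Topology Finset MeasureTheory

namespace Pool.Agent.Q68.EX

open Pool.Agent.Q240.CD Pool.Agent.Q240.EX

/-- an infinite product of factors close to one -/
theorem prod_sub {u : ℕ → ℂ} (hu : Summable fun k => ‖u k‖) :
    ‖∏' k, (1 - u k) - 1‖ ≤ Real.exp (∑' k, ‖u k‖) - 1 := by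
  have hu' : Summable fun k => ‖-u k‖ := by simpa using hu
  have hm : Multipliable fun k => 1 + -u k := multipliable_one_add_of_summable hu'
  have h1 := hm.hasProd.tendsto_prod_nat
  have h2 : Tendsto (fun N => ‖∏ k ∈ range N, (1 + -u k) - 1‖) atTop
      (𝓝 ‖∏' k, (1 + -u k) - 1‖) := (h1.sub_const 1).norm
  have e : (fun k => 1 - u k) = fun k => 1 + -u k := by
    funext k
    ring
  rw [e]
  refine le_of_tendsto h2 (Eventually.of_forall fun N => ?_)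
  refine (Finset.norm_prod_one_add_sub_one_le (range N) fun k => -u k).trans ?_
  have h3 : ∑ k ∈ range N, ‖-u k‖ ≤ ∑' k, ‖u k‖ := by
    simp only [norm_neg]
    exact hu.sum_le_tsum _ (fun k _ => norm_nonneg _)
  linarith [Real.exp_le_exp.2 h3]

/-- the bound for `S - 1` -/
theorem sp_sub {a : ℝ} {n : ℕ} (ha : 0 < a) (hn : 1 ≤ n) (z : ℂ) :
    ‖Sp a n z - 1‖ ≤ Real.exp (‖z‖ ^ 2 * (a ^ 2 / (Real.pi ^ 2 * n))) - 1 := by
  obtain ⟨hsum, -, hle⟩ := Pool.Agent.Q237.CD.sn_bounds a n ha hn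
  have hun : ∀ k : ℕ, ‖z ^ 2 / ((xk a (n + 1 + k) : ℝ) : ℂ) ^ 2‖ =
      ‖z‖ ^ 2 * (1 / xk a (n + 1 + k) ^ 2) := by
    intro k
    rw [norm_div, norm_pow, norm_pow, Complex.norm_real, Real.norm_eq_abs, sq_abs]
    ring
  have husum : Summable fun k : ℕ => ‖z ^ 2 / ((xk a (n + 1 + k) : ℝ) : ℂ) ^ 2‖ := by
    simp_rw [hun]
    exact hsum.mul_left _
  have h1 := prod_sub husum
  have h2 : ∑' k : ℕ, ‖z ^ 2 / ((xk a (n + 1 + k) : ℝ) : ℂ) ^ 2‖ = ‖z‖ ^ 2 * sn a n := by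
    simp_rw [hun]
    rw [tsum_mul_left]
    rfl
  rw [h2] at h1
  have h3 : ‖z‖ ^ 2 * sn a n ≤ ‖z‖ ^ 2 * (a ^ 2 / (Real.pi ^ 2 * n)) :=
    mul_le_mul_of_nonneg_left hle (by positivity)
  have h4 := Real.exp_le_exp.2 h3
  have h5 : ‖Sp a n z - 1‖ ≤ Real.exp (‖z‖ ^ 2 * sn a n) - 1 := h1
  linarith

theorem li_fst : Tendsto (fun p : ℝ × ℕ => p.1) Li atTop :=
  tendsto_comap.mono_left inf_le_left

theorem li_snd : Tendsto (fun p : ℝ × ℕ => (p.2 : ℝ) / p.1 ^ 2) Li atTop :=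
  tendsto_comap.mono_left inf_le_right

theorem limS2 : S_LimS2 := by
  unfold S_LimS2
  have hpi := Real.pi_pos
  rw [tendstoLocallyUniformly_iff_forall_isCompact]
  intro Kc hKc
  rw [Metric.tendstoUniformlyOn_iff]
  intro ε hε
  obtain ⟨R, hR⟩ := hKc.isBounded.subset_closedBall (0 : ℂ)
  -- the tolerance
  have hc : Tendsto (fun x : ℝ => Real.exp (R ^ 2 / Real.pi ^ 2 * x⁻¹) - 1) atTop (𝓝 0) := by
    have h1 : Tendsto (fun x : ℝ => R ^ 2 / Real.pi ^ 2 * x⁻¹) atTop (𝓝 (R ^ 2 / Real.pi ^ 2 * 0)) :=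
      tendsto_inv_atTop_zero.const_mul _
    rw [mul_zero] at h1
    have h2 := (Real.continuous_exp.tendsto 0).comp h1
    have h3 := h2.sub_const 1
    simpa using h3
  have h1 : ∀ᶠ p : ℝ × ℕ in Li,
      Real.exp (R ^ 2 / Real.pi ^ 2 * ((p.2 : ℝ) / p.1 ^ 2)⁻¹) - 1 < ε :=
    (hc.comp li_snd).eventually (gt_mem_nhds hε)
  filter_upwards [h1, li_fst.eventually (eventually_gt_atTop 0),
    li_snd.eventually (eventually_gt_atTop 0)] with p hp1 hp2 hp3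
  intro z hz
  have hzR : ‖z‖ ≤ R := by
    have := hR hz
    rwa [mem_closedBall_zero_iff] at this
  have hn1 : 1 ≤ p.2 := by
    rcases Nat.eq_zero_or_pos p.2 with h | h
    · rw [h] at hp3
      simp at hp3
    · exact h
  have hn0 : (0 : ℝ) < p.2 := by exact_mod_cast hn1
  rw [dist_comm, dist_eq_norm]
  refine (sp_sub hp2 hn1 z).trans_lt (lt_of_le_of_lt ?_ hp1)
  have h5 : ‖z‖ ^ 2 * (p.1 ^ 2 / (Real.pi ^ 2 * p.2)) ≤
      R ^ 2 / Real.pi ^ 2 * ((p.2 : ℝ) / p.1 ^ 2)⁻¹ := by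
    have e : R ^ 2 / Real.pi ^ 2 * ((p.2 : ℝ) / p.1 ^ 2)⁻¹ =
        R ^ 2 * (p.1 ^ 2 / (Real.pi ^ 2 * p.2)) := by
      field_simp
    rw [e]
    have h6 : ‖z‖ ^ 2 ≤ R ^ 2 := pow_le_pow_left₀ (norm_nonneg z) hzR 2
    exact mul_le_mul_of_nonneg_right h6 (by positivity)
  linarith [Real.exp_le_exp.2 h5]

end Pool.Agent.Q68.EX
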